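import Mathlib

open Set TopologicalSpace Topology

namespace Pool.Agent.Results.MP_dd3b7d_gt.Cofinite

/-- Scott open subsets of a complete lattice. -/
def ScottOpen {P : Type} [CompleteLattice P] (F : Set P) : Prop :=
  IsUpperSet F ∧ ∀ D : Set P, D.Nonempty → DirectedOn (· ≤ ·) D → sSup D ∈ F → (D ∩ F).Nonempty

/-- The upper topology, generated by the complements of principal ideals. -/
@[reducible] def upperTop (P : Type) [CompleteLattice P] : TopologicalSpace P :=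
  generateFrom {S | ∃ x : P, S = (Iic x)ᶜ}

/-- Co-consonance: the upper and the Scott topology of `O(X)` have the same open sets. -/
def CoConsonant (X : Type) [TopologicalSpace X] : Prop :=
  ∀ F : Set (Opens X), IsOpen[upperTop (Opens X)] F ↔ ScottOpen F

/-- Nonempty compact saturated sets. -/
def Q (X : Type) [TopologicalSpace X] : Type :=
  {K : Set X // K.Nonempty ∧ IsCompact K ∧ K = ⋂₀ {U | IsOpen U ∧ K ⊆ U}}

/-- The upper Vietoris topology of the Smyth powerspace. -/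
@[reducible] def smyth (X : Type) [TopologicalSpace X] : TopologicalSpace (Q X) :=
  generateFrom {S | ∃ U : Set X, IsOpen U ∧ S = {K : Q X | K.1 ⊆ U}}

lemma up_scott {P : Type} [CompleteLattice P] {F : Set P} (h : IsOpen[upperTop P] F) :
    ScottOpen F := by
  induction h with
  | basic S hS =>
    obtain ⟨x, rfl⟩ := hS
    refine ⟨(isLowerSet_Iic x).compl, fun D _ _ h => ?_⟩
    by_contra hc
    exact h (sSup_le fun d hd => by_contra fun h' => hc ⟨d, hd, h'⟩)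
  | univ => exact ⟨isUpperSet_univ, fun D hD _ _ => by simpa using hD⟩
  | inter S T _ _ hS hT =>
    refine ⟨hS.1.inter hT.1, fun D h1 h2 h => ?_⟩
    obtain ⟨a, ha, ha'⟩ := hS.2 D h1 h2 h.1
    obtain ⟨b, hb, hb'⟩ := hT.2 D h1 h2 h.2
    obtain ⟨c, hc, h3, h4⟩ := h2 a ha b hb
    exact ⟨c, hc, hS.1 h3 ha', hT.1 h4 hb'⟩
  | sUnion S _ h =>
    refine ⟨isUpperSet_sUnion fun t ht => (h t ht).1, fun D h1 h2 ⟨t, ht, h3⟩ => ?_⟩
    obtain ⟨a, ha, ha'⟩ := (h t ht).2 D h1 h2 h3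
    exact ⟨a, ha, t, ht, ha'⟩

lemma pt_open {X : Type} [TopologicalSpace X] (x : X) :
    IsOpen[upperTop (Opens X)] {V : Opens X | x ∈ V} := by
  refine isOpen_generateFrom_of_mem ⟨⟨(closure {x})ᶜ, isClosed_closure.isOpen_compl⟩, ?_⟩
  ext V
  constructor
  · exact fun h h' => h' h (subset_closure rfl)
  · intro h
    by_contra hx
    refine h fun y hy hc => ?_
    obtain ⟨z, hz, rfl⟩ := mem_closure_iff.1 hc _ V.isOpen hy
    exact hx hz

lemma up_fin {X : Type} [TopologicalSpace X] {F : Set (Opens X)}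
    (h : IsOpen[upperTop (Opens X)] F) (hF : ⊤ ∈ F) :
    ∃ E : Set X, E.Finite ∧ ∀ V : Opens X, E ⊆ V → V ∈ F := by
  induction h with
  | basic S hS =>
    obtain ⟨W, rfl⟩ := hS
    obtain ⟨x, -, hx⟩ := Set.not_subset.1 hF
    exact ⟨{x}, finite_singleton _, fun V hV h => hx (h (hV rfl))⟩
  | univ => exact ⟨∅, finite_empty, fun _ _ => trivial⟩
  | inter S T _ _ hS hT =>
    obtain ⟨E, h1, h2⟩ := hS hF.1
    obtain ⟨E', h1', h2'⟩ := hT hF.2
    exact ⟨E ∪ E', h1.union h1', fun V hV =>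
      ⟨h2 V (subset_union_left.trans hV), h2' V (subset_union_right.trans hV)⟩⟩
  | sUnion S _ h =>
    obtain ⟨t, ht, h3⟩ := hF
    obtain ⟨E, h1, h2⟩ := h t ht h3
    exact ⟨E, h1, fun V hV => ⟨t, ht, h2 V hV⟩⟩

lemma box {X : Type} [TopologicalSpace X] {S : Set (Q X)} (h : IsOpen[smyth X] S) {K : Q X}
    (hK : K ∈ S) : ∃ U : Set X, IsOpen U ∧ K.1 ⊆ U ∧ ∀ L : Q X, L.1 ⊆ U → L ∈ S := by
  induction h with
  | basic S hS =>
    obtain ⟨U, hU, rfl⟩ := hS
    exact ⟨U, hU, hK, fun _ h => h⟩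
  | univ => exact ⟨univ, isOpen_univ, subset_univ _, fun _ _ => trivial⟩
  | inter S T _ _ hS hT =>
    obtain ⟨U, h1, h2, h3⟩ := hS hK.1
    obtain ⟨V, g1, g2, g3⟩ := hT hK.2
    exact ⟨U ∩ V, h1.inter g1, subset_inter h2 g2, fun L h =>
      ⟨h3 L (h.trans inter_subset_left), g3 L (h.trans inter_subset_right)⟩⟩
  | sUnion S _ h =>
    obtain ⟨t, ht, h3⟩ := hK
    obtain ⟨U, h1, h2, h4⟩ := h t ht h3
    exact ⟨U, h1, h2, fun L hL => ⟨t, ht, h4 L hL⟩⟩

abbrev X := CofiniteTopology ℕ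

lemma sat (K : Set X) : K = ⋂₀ {U | IsOpen U ∧ K ⊆ U} := by
  refine Subset.antisymm (fun x hx U hU => hU.2 hx) fun x hx => by_contra fun h => ?_
  exact hx {x}ᶜ ⟨isOpen_compl_singleton, fun y hy e => h (e ▸ hy)⟩ rfl

theorem result : ∃ (X : Type) (_ : TopologicalSpace X), T0Space X ∧
    @CoConsonant (Q X) (smyth X) ∧ ¬ CoConsonant X := by
  refine ⟨X, inferInstance, inferInstance, fun F => ⟨up_scott, fun hF => ?_⟩, fun h => ?_⟩
  · let _ := smyth X
    let _ := upperTop (Opens (Q X))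
    refine isOpen_iff_mem_nhds.2 fun U hU => ?_
    obtain ⟨W, ⟨E, hE, hEU, hW⟩, hWF⟩ := hF.2 {W | ∃ E : Set (Q X), E.Finite ∧ E ⊆ U ∧
        (W : Set (Q X)) ⊆ {L | ∃ K ∈ E, L.1 ⊆ K.1}} ⟨⊥, ∅, finite_empty, by simp, by simp⟩
      (by
        rintro a ⟨E, h1, h2, h3⟩ b ⟨E', g1, g2, g3⟩
        refine ⟨a ⊔ b, ⟨E ∪ E', h1.union g1, union_subset h2 g2, ?_⟩, le_sup_left, le_sup_right⟩
        rintro L (hL | hL)
        · obtain ⟨K, k1, k2⟩ := h3 hL; exact ⟨K, Or.inl k1, k2⟩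
        · obtain ⟨K, k1, k2⟩ := g3 hL; exact ⟨K, Or.inr k1, k2⟩)
      (hF.1 (fun K hK => by
        obtain ⟨V, h1, h2, h3⟩ := box U.isOpen hK
        let V' : Q X := ⟨V, K.2.1.mono h2, NoetherianSpace.isCompact V, sat V⟩
        refine Opens.mem_sSup.2 ⟨⟨{L | L.1 ⊆ V}, isOpen_generateFrom_of_mem ⟨V, h1, rfl⟩⟩,
          ⟨{V'}, finite_singleton _, singleton_subset_iff.2 (h3 V' Subset.rfl),
            fun L hL => ⟨V', rfl, hL⟩⟩, h2⟩) hU)
    refine Filter.mem_of_superset ((hE.isOpen_biInter fun K _ => pt_open K).mem_nhds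
      (mem_iInter₂.2 fun K hK => hEU hK)) fun V hV => hF.1 (fun L hL => ?_) hWF
    obtain ⟨K, k1, k2⟩ := hW hL
    obtain ⟨T, -, h2, h3⟩ := box V.isOpen (mem_iInter₂.1 hV K k1)
    exact h3 L (k2.trans h2)
  · have hs : ScottOpen ({⊤} : Set (Opens X)) := by
      refine ⟨fun a b hab ha => top_le_iff.1 (ha ▸ hab), fun D h1 h2 h3 => ?_⟩
      obtain ⟨m, hm, hmax⟩ := (wellFounded_gt (α := Opens X)).has_min D h1
      refine ⟨m, hm, top_le_iff.1 (h3.symm.le.trans (sSup_le fun d hd => ?_))⟩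
      obtain ⟨c, hc, c1, c2⟩ := h2 d hd m hm
      exact c1.trans (eq_of_le_of_not_lt c2 (hmax c hc)).ge
    obtain ⟨E, hE, hV⟩ := up_fin ((h _).2 hs) rfl
    have : Infinite X := Infinite.of_injective _ CofiniteTopology.of.injective
    obtain ⟨p, hp⟩ := hE.exists_notMem
    have h1 : (⟨{p}ᶜ, isOpen_compl_singleton⟩ : Opens X) = ⊤ := hV _ fun y hy e => hp (e ▸ hy)
    have h2 : p ∈ (⟨{p}ᶜ, isOpen_compl_singleton⟩ : Opens X) := h1 ▸ trivial
    exact h2 rfl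

end Pool.Agent.Results.MP_dd3b7d_gt.Cofinite
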